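import Pool.Agent.H29.BH.Targets2
import Pool.Agent.H20.SWL.CU

/-!
N_MT: measurability.
-/

set_option autoImplicit false

open NumberField NumberField.InfinitePlace NumberField.Units
  NumberField.Units.dirichletUnitTheorem MeasureTheory Set Filter Complex
open scoped nonZeroDivisors ENNReal Topology

namespace Pool.Agent.H20.BH.MT

open Pool.Agent.H25.HK Pool.Agent.H23.LB Pool.Agent.H23.LC Pool.Agent.H29.DW
open Pool.Agent.H28.RC (Rep ft idl)
open Pool.Agent.H29.TC (dvs)
open Pool.Agent.H29.BH

theorem measurable_Gm (k : ℤ) (μ : ℂ) : Measurable (fun w : ℂ => Gm k μ w) := by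
  unfold Gm
  refine Measurable.mul ?_ ?_
  · have h1 : Measurable (fun w : ℂ => w / ((‖w‖ : ℝ) : ℂ)) :=
      measurable_id.div (Complex.measurable_ofReal.comp measurable_norm)
    exact h1.pow_const k
  · exact Complex.measurable_exp.comp (measurable_const.mul
      (Complex.measurable_ofReal.comp (Real.measurable_log.comp measurable_norm)))

/-- complex sums with finite supports are measurable -/
theorem measurable_tsum {ι X : Type} [Countable ι] [MeasurableSpace X] (F : ι → X → ℂ)
    (hF : ∀ i, Measurable (F i)) (hs : ∀ x, Summable fun i => F i x) :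
    Measurable (fun x => ∑' i, F i x) := by
  refine measurable_of_tendsto_metrizable' (atTop : Filter (Finset ι))
    (f := fun s x => ∑ i ∈ s, F i x) (fun s => ?_) ?_
  · exact Finset.measurable_sum s fun i _ => hF i
  · rw [tendsto_pi_nhds]
    intro x
    exact (hs x).hasSum

theorem countable_K (K : Type) [Field K] [NumberField K] : Countable K := by
  have h1 := Algebraic.countable ℚ K
  have h2 : {x : K | IsAlgebraic ℚ x} = Set.univ :=
    Set.eq_univ_of_forall fun x => Algebra.IsAlgebraic.isAlgebraic x
  rw [h2] at h1
  exact Set.countable_univ_iff.1 h1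

theorem pf_MT : N_MT := by
  intro K _ _ f L y hL
  have : Countable K := countable_K K
  constructor
  · intro c k μ B A hA
    unfold TT
    refine measurable_tsum (fun (x : {x : K // x ∈ L})
      (q : (InfinitePlace K → ℂ) × (InfinitePlace K → ℂ)) =>
      c x * PhA k μ A (fun v => sy y x.1 v - q.1 v) q.2) (fun x => ?_) (fun q => ?_)
    · refine measurable_const.mul ?_
      unfold PhA
      refine Finset.measurable_prod _ fun v _ => ?_
      have hb : Measurable (fun q : (InfinitePlace K → ℂ) × (InfinitePlace K → ℂ) =>
          sy y x.1 v - q.1 v) :=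
        measurable_const.sub ((measurable_pi_apply v).comp measurable_fst)
      have hz : Measurable (fun q : (InfinitePlace K → ℂ) × (InfinitePlace K → ℂ) => q.2 v) :=
        (measurable_pi_apply v).comp measurable_snd
      refine Measurable.mul ?_ ?_
      · exact (hA.meas v).comp (hb.prodMk hz)
      · exact (measurable_Gm (k v) (μ v)).comp (measurable_const.add (hb.div hz))
    · have hn : 0 < Module.finrank ℚ K := Module.finrank_pos
      obtain ⟨C, hC, hCU⟩ := Pool.Agent.H20.SWL.pf_CU (Module.finrank ℚ K) hn
      obtain ⟨hfin, -⟩ := hCU K rfl L y (fun _ => 1) q.1 (fun _ => 1 / 8) hL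
        ⟨fun v => by simp, fun v _ => by simp⟩ (fun _ => by norm_num)
      have hfin' : {x : {x : K // x ∈ L} | ∀ v, ‖sy y x.1 v - q.1 v‖ ≤ 1 / 8}.Finite := by
        refine Set.Finite.of_finite_image (f := Subtype.val) (hfin.subset ?_)
          Subtype.val_injective.injOn
        rintro _ ⟨x, hx, rfl⟩
        refine ⟨x.2, fun v => ?_⟩
        have := hx v
        unfold sy at this
        unfold wv
        rw [mul_one]
        exact this
      refine summable_of_hasFiniteSupport (hfin'.subset fun x hx => ?_)
      intro v
      by_contra hv
      apply hx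
      simp only [PhA]
      rw [Finset.prod_eq_zero (Finset.mem_univ v), mul_zero]
      have h1 : A v (sy y x.1 v - q.1 v) (q.2 v) = 0 := by
        by_contra h
        exact hv ((hA.bound v _ _).2 h).1
      rw [h1, zero_mul]
  · intro η a
    unfold nA
    refine Measurable.tsum fun w => ?_
    refine Measurable.ite ?_ measurable_const measurable_const
    rw [Set.ofPred_forall]
    refine MeasurableSet.iInter fun v => ?_
    refine measurableSet_le ?_ measurable_const
    refine Measurable.norm ?_
    exact (((measurable_pi_apply v).comp measurable_fst).add measurable_const).sub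
      ((measurable_pi_apply v).comp measurable_snd)

end Pool.Agent.H20.BH.MT
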